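import Pool.Agent.helper97.IRO.Spec

/-!
# Row iro:FN7 (MP_90e158_lc): the laws are essentially free off the fixed points
-/

set_option autoImplicit false

open MeasureTheory Pool.Agent.LOF

namespace Pool.Agent.IRO

lemma FN7_fix_meas (g : F) : MeasurableSet {r : LO F | conj g r = r} := by
  have h1 : {r : LO F | conj g r = r} =
      ⋂ p : F × F, {r : LO F | r.1 (p.1 * g, p.2 * g) = r.1 p} := by
    ext r
    rw [Set.mem_iInter, Set.mem_setOf_eq]
    constructor
    · intro h p
      have := congrFun (congrArg Subtype.val h) p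
      exact this
    · intro h
      apply Subtype.ext
      funext p
      exact h p
  rw [h1]
  apply MeasurableSet.iInter
  intro p
  have hm1 : Measurable (fun r : LO F => r.1 (p.1 * g, p.2 * g)) :=
    (measurable_pi_apply (p.1 * g, p.2 * g)).comp measurable_subtype_coe
  have hm2 : Measurable (fun r : LO F => r.1 p) :=
    (measurable_pi_apply p).comp measurable_subtype_coe
  exact measurableSet_eq_fun hm1 hm2

lemma FN7_set_meas (g : F) :
    MeasurableSet {r : LO F | conj g r = r ∧ ¬ ∀ h : F, conj h r = r} := by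
  have h1 : {r : LO F | conj g r = r ∧ ¬ ∀ h : F, conj h r = r} =
      {r : LO F | conj g r = r} ∩ (⋂ h : F, {r : LO F | conj h r = r})ᶜ := by
    ext r
    simp
  rw [h1]
  exact (FN7_fix_meas g).inter (MeasurableSet.iInter FN7_fix_meas).compl

lemma FN7_pull_meas : Measurable (pull : LO F → LO F) := by
  apply Measurable.subtype_mk
  apply measurable_pi_lambda
  intro z
  exact (measurable_pi_apply (mirF z.1, mirF z.2)).comp measurable_subtype_coe

lemma FN7_mir_mir (g : F) : mirF (mirF g) = g := Subtype.ext (mir_mir g.1)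

lemma FN7_pull_conj (g : F) (r : LO F) : conj g (pull r) = pull (conj (mirF g) r) := by
  apply Subtype.ext
  funext z
  show r.1 (mirF (z.1 * g), mirF (z.2 * g)) = r.1 (mirF z.1 * mirF g, mirF z.2 * mirF g)
  rw [map_mul, map_mul]

lemma FN7_pull_pull (r : LO F) : pull (pull r) = r := by
  apply Subtype.ext
  funext z
  show r.1 (mirF (mirF z.1), mirF (mirF z.2)) = r.1 z
  rw [FN7_mir_mir, FN7_mir_mir]

/-- the random order of side `t` -/
noncomputable def FN7_f (t : Bool) (q : Q) (ε : D → Bool) : LO F :=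
  if t then Ord q ε else pull (Ord q ε)

/-- `g` or its mirror image -/
noncomputable def FN7_g (t : Bool) (g : F) : F := if t then g else mirF g

lemma FN7_conj (h2 : FN2_stmt) (t : Bool) (q : Q) (g : F) (ε : D → Bool) :
    conj g (FN7_f t q ε) = FN7_f t q (actS (FN7_g t g) ε) := by
  cases t
  · show conj g (pull (Ord q ε)) = pull (Ord q (actS (mirF g) ε))
    rw [FN7_pull_conj, h2]
  · show conj g (Ord q ε) = Ord q (actS g ε)
    exact h2 g q ε

lemma FN7_inj (h1 : FN1_stmt) (t : Bool) (q : Q) : Function.Injective (FN7_f t q) := by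
  obtain ⟨Ψ, _, hΨ⟩ := h1
  have hO : ∀ ε ε' : D → Bool, Ord q ε = Ord q ε' → ε = ε' := by
    intro ε ε' h
    have h3 := congrArg Ψ h
    rw [hΨ, hΨ] at h3
    exact (Prod.ext_iff.1 h3).2
  intro ε ε' h
  cases t
  · have h3 : pull (Ord q ε) = pull (Ord q ε') := h
    have h4 := congrArg pull h3
    rw [FN7_pull_pull, FN7_pull_pull] at h4
    exact hO _ _ h4
  · exact hO _ _ h

lemma FN7_meas (h3 : FN3_stmt) (t : Bool) (q : Q) : Measurable (FN7_f t q) := by
  have h4 : Measurable (fun ε : D → Bool => Ord q ε) :=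
    h3.comp (measurable_const.prodMk measurable_id)
  cases t
  · exact FN7_pull_meas.comp h4
  · exact h4

lemma FN7_g_ne (t : Bool) (g : F) (hg : g ≠ 1) : FN7_g t g ≠ 1 := by
  cases t
  · show mirF g ≠ 1
    intro h
    apply hg
    have h5 := congrArg mirF h
    rw [FN7_mir_mir, map_one] at h5
    exact h5
  · exact hg

lemma FN7_const (g : F) (b : Bool) : actS g (fun _ => b) = fun _ => b := rfl

/-- for `p = 0` or `1` the law of the signs is a point mass -/
lemma FN7_point (p : unitInterval) (hp : ¬ (0 < p.1 ∧ p.1 < 1)) :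
    ∃ b : Bool, bernP p = Measure.dirac (fun _ => b) := by
  have hp0 := p.2.1
  have hp1 := p.2.2
  by_cases h0 : 0 < p.1
  · have h1 : p.1 = 1 := by
      by_contra h
      exact hp ⟨h0, lt_of_le_of_ne hp1 h⟩
    refine ⟨true, ?_⟩
    have hc : coinP p = Measure.dirac true := by
      unfold coinP
      rw [h1]
      simp
    unfold bernP
    rw [hc]
    exact Measure.infinitePi_dirac _
  · have h1 : p.1 = 0 := le_antisymm (not_lt.1 h0) hp0
    refine ⟨false, ?_⟩
    have hc : coinP p = Measure.dirac false := by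
      unfold coinP
      rw [h1]
      simp
    unfold bernP
    rw [hc]
    exact Measure.infinitePi_dirac _

/-- **FN7**. -/
theorem FN7 (hFR : FR_stmt) (hFN1 : FN1_stmt) (hFN2 : FN2_stmt) (hFN3 : FN3_stmt) :
    FN7_stmt := by
  intro t q p g hg
  have hlaw : law t q p = (bernP p).map (FN7_f t q) := rfl
  rw [hlaw, Measure.map_apply (FN7_meas hFN3 t q) (FN7_set_meas g)]
  by_cases hp : 0 < p.1 ∧ p.1 < 1
  · refine measure_mono_null ?_ (hFR p (FN7_g t g) hp.1 hp.2 (FN7_g_ne t g hg))
    intro ε hε
    have h4 : conj g (FN7_f t q ε) = FN7_f t q ε := hε.1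
    rw [FN7_conj hFN2] at h4
    exact FN7_inj hFN1 t q h4
  · obtain ⟨b, hb⟩ := FN7_point p hp
    rw [hb, Measure.dirac_apply' _ (FN7_meas hFN3 t q (FN7_set_meas g))]
    rw [Set.indicator_of_notMem]
    intro hε
    apply hε.2
    intro h
    rw [FN7_conj hFN2, FN7_const]

end Pool.Agent.IRO
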